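import Pool.Agent.H61.CO.Fin

/-!
# The HOMFLY polynomials coloured by symmetric and exterior powers of classical links are
# invariant under crossing virtualization
-/

namespace Pool.Agent.Results.MP_174676_gt.ColouredHomfly

theorem result (K : Type) [Field K] (a s : K) (ha : a ≠ 0) (hs : s ≠ 0) (hs1 : s ^ 2 ≠ 1)
    (P : ℕ → List ZM.BL → K) (hP : ZM.Homfly K a (s - s⁻¹) P) (k : ℕ) (hk : 1 ≤ k)
    (hN : CO.nk s k ≠ 0) (m m' : ℕ) (w w' : List ZM.BL) (hm : 1 ≤ m) (hw : ZM.BOk m w)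
    (hw' : ZM.BOk m' w') (hc : ZM.Classical w) (hc' : ZM.Classical w')
    (h : ZM.ZEquiv (m, w) (m', w')) : CO.col P a s k m w = CO.col P a s k m' w' :=
  CO.coloured K a s ha hs hs1 P hP hk hN hm hw hw' hc hc' h

end Pool.Agent.Results.MP_174676_gt.ColouredHomfly
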