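import Pool.Agent.H75.VK.Ex

/-!
# Crossing virtualization preserves the Fox colourings of classical links

`Pool.Agent.H75.VK.Defs` holds the definitions (diagrams as words in cups, caps, classical and
virtual crossings; the moves; Fox colourings).

Proof.  For an abelian group `M` consider the rule `brule M` on the set `M × M`
(`Pool.Agent.H75.VK.Brule`).  It satisfies all axioms of an involutory biquandle and
`cross s y x = swap (cross s x y)`, so the number of its colourings is invariant under all
generalized Reidemeister moves and virtualization, for all virtual diagrams.  On a classical
diagram the regions can be coloured too (Dehn colourings), and if the order of `M` is odd then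
the colourings by `brule M` correspond to the Fox colourings with values in `M × M`: the strand
with left region `ρ`, right region `ρ'` has the colour `(ρ.1 - ρ'.2, ρ'.1 + ρ.2)` or
`(ρ.1 + ρ'.2, ρ'.1 - ρ.2)`, according to the parity of the left region.  The number of these
is the square of the number of Fox colourings with values in `M`.
-/

set_option autoImplicit false

open Pool.Agent.H75.VK

namespace Pool.Agent.Results.MP_174676_gt.FoxColourings

/-- Classical diagrams which are related by generalized Reidemeister moves and virtualizations have
the same number of Fox colourings with values in every finite abelian group of odd order.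
For example, if the connected sums `#^a 8₉ #^b 4₁` and `#^c 8₉ #^d 4₁` are related then
`a + b = c + d`; they have the same Jones polynomial if `2 a + b = 2 c + d`. -/
theorem result :
    (∀ (M : Type) [AddCommGroup M] [Finite M], Odd (Nat.card M) →
      ∀ D D' : Word, IsClassical D → IsClassical D' → Related D D' →
        foxNumber M D = foxNumber M D') ∧
    ∀ a b : ℕ, IsDiagram (sumKnot a b) ∧ IsClassical (sumKnot a b) ∧
      ∀ c d : ℕ, Related (sumKnot a b) (sumKnot c d) → a + b = c + d := by
  refine ⟨fun M _ _ hM D D' hD hD' h => foxNumber_invariant M hM hD hD' h, fun a b =>
    ⟨sumKnot_isDiagram a b, sumKnot_isClassical a b, fun c d h => ?_⟩⟩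
  have h5 : Odd (Nat.card (ZMod 5)) := by
    rw [Nat.card_zmod]
    decide
  have h1 := foxNumber_invariant (ZMod 5) h5 (sumKnot_isClassical a b) (sumKnot_isClassical c d) h
  rw [foxNumber_sumKnot, foxNumber_sumKnot] at h1
  have := Nat.pow_right_injective (le_refl 2 |>.trans (by norm_num : 2 ≤ 5)) h1
  omega

end Pool.Agent.Results.MP_174676_gt.FoxColourings
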