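import Pool.Agent.H70.SG.K

/-!
# The signature of classical links is invariant under crossing virtualization
-/

namespace Pool.Agent.Results.MP_174676_gt.Signature

theorem result (m m' : ℕ) (w w' : List ZM.BL) (hw : ZM.BOk m w) (hw' : ZM.BOk m' w')
    (hc : ZM.Classical w) (hc' : ZM.Classical w') (h : ZM.ZEquiv (m, w) (m', w')) :
    SG.sig w = SG.sig w' :=
  SG.signature_ZEquiv m m' w w' hw hw' hc hc' h

end Pool.Agent.Results.MP_174676_gt.Signature
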