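import Pool.Agent.H75.ZM.HoM

/-!
# The `sl(n)` polynomials extend to virtual links, invariantly under crossing virtualization
-/

namespace Pool.Agent.Results.MP_174676_gt.SlnExtension

theorem result (K : Type) [Field K] (q : K) (n : ℕ) (hq : q ≠ 0) (hn : 2 ≤ n)
    (hn1 : (n : K) + 1 ≠ 0) : ∃ P : ℕ × List ZM.BL → K, ZM.SlnZ K q n P :=
  ZM.slnZ K q n hq hn hn1

end Pool.Agent.Results.MP_174676_gt.SlnExtension
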